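import Pool.Agent.Helper6.AF.Base
import Pool.Agent.Helper99.AF.Shift1
import Pool.Agent.Helper95.AF.Peel2
import Pool.Agent.Helper6.AF.RR
import Pool.Agent.Helper82.AN.Eta

/-! # Project AF (`MP_9ee088_an`), block E0: expectation over `M` windows, base level -/

set_option autoImplicit false
open MeasureTheory Real Set Filter Topology
open scoped ENNReal

namespace Pool.Agent.Helper30.AF

open Pool.Agent.Helper95.AF
open Pool.Agent.Helper18.UC (nn LL sqo rep toT)
open Pool.Agent.Helper46.QP (TT Td)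
open Pool.Agent.Helper82.AN (Ik Ow lawL wt bas eta Hw sq SepR)

/-! ### dependence on finitely many terms -/

theorem po_congr {a : ℝ} {b b' : ℕ → ℝ} {n : ℕ} (h : ∀ j < n, b j = b' j) (z : ℝ × ℝ) : po a b n z = po a b' n z := by
  induction n with
  | zero => rfl
  | succ n ih =>
    show st a (b n) (po a b n z) = st a (b' n) (po a b' n z)
    rw [ih (fun j hj => h j (by omega)), h n (by omega)]

theorem pM_congr {a : ℝ} {b b' : ℕ → ℝ} {n : ℕ} (h : ∀ j < n, b j = b' j) (z : ℝ × ℝ) : pM a b n z = pM a b' n z := by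
  induction n with
  | zero => rfl
  | succ n ih =>
    show mt a (po a b n z).1 * pM a b n z = mt a (po a b' n z).1 * pM a b' n z
    rw [ih (fun j hj => h j (by omega)), po_congr (fun j hj => h j (by omega))]

/-! ### measurability -/

theorem po_meas (a : ℝ) (n : ℕ) : Measurable fun p : (ℕ → ℝ) × (ℝ × ℝ) => po a p.1 n p.2 := by
  induction n with
  | zero => exact measurable_snd
  | succ n ih =>
    have h : (fun p : (ℕ → ℝ) × (ℝ × ℝ) => po a p.1 (n + 1) p.2) =
        fun p => (2 * (po a p.1 n p.2).1 - (po a p.1 n p.2).2 + a * Real.sin (2 * π * (po a p.1 n p.2).1) + p.1 n,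
          (po a p.1 n p.2).1) := rfl
    rw [h]
    have h1 : Measurable fun p : (ℕ → ℝ) × (ℝ × ℝ) => (po a p.1 n p.2).1 := ih.fst
    have h2 : Measurable fun p : (ℕ → ℝ) × (ℝ × ℝ) => (po a p.1 n p.2).2 := ih.snd
    have h3 : Measurable fun p : (ℕ → ℝ) × (ℝ × ℝ) => p.1 n := (measurable_pi_apply n).comp measurable_fst
    exact ((((h1.const_mul 2).sub h2).add ((Real.measurable_sin.comp (h1.const_mul (2 * π))).const_mul a)).add h3).prodMk h1

theorem pM_meas (a : ℝ) (n : ℕ) : ∀ i j : Fin 2, Measurable fun p : (ℕ → ℝ) × (ℝ × ℝ) => pM a p.1 n p.2 i j := by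
  induction n with
  | zero => intro i j; exact measurable_const
  | succ n ih =>
    have h1 : Measurable fun p : (ℕ → ℝ) × (ℝ × ℝ) => (po a p.1 n p.2).1 := (po_meas a n).fst
    have h2 : Measurable fun p : (ℕ → ℝ) × (ℝ × ℝ) => 2 + 2 * π * a * Real.cos (2 * π * (po a p.1 n p.2).1) :=
      ((Real.measurable_cos.comp (h1.const_mul (2 * π))).const_mul (2 * π * a)).const_add 2
    intro i j
    have h : (fun p : (ℕ → ℝ) × (ℝ × ℝ) => pM a p.1 (n + 1) p.2 i j) =
        fun p => mt a (po a p.1 n p.2).1 i 0 * pM a p.1 n p.2 0 j + mt a (po a p.1 n p.2).1 i 1 * pM a p.1 n p.2 1 j := by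
      funext p
      show (mt a (po a p.1 n p.2).1 * pM a p.1 n p.2) i j = _
      rw [Matrix.mul_apply, Fin.sum_univ_two]
    rw [h]
    have h3 : ∀ k : Fin 2, Measurable fun p : (ℕ → ℝ) × (ℝ × ℝ) => mt a (po a p.1 n p.2).1 i k := by
      intro k
      fin_cases i <;> fin_cases k
      · exact h2
      · exact measurable_const
      · exact measurable_const
      · exact measurable_const
    exact ((h3 0).mul (ih 0 j)).add ((h3 1).mul (ih 1 j))

theorem ip_meas (p : ℝ) : Measurable (ip p) := ENNReal.measurable_ofReal.pow_const _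

/-- the integrand -/
theorem fz_meas (a : ℝ) (n : ℕ) : Measurable fun p : (ℕ → ℝ) × (ℝ × ℝ) => ip (1 / 4) |pM a p.1 n p.2 0 0| :=
  (ip_meas _).comp (measurable_norm.comp (pM_meas a n 0 0))

/-- the integral over the square of side `2` -/
noncomputable def II (a : ℝ) (n : ℕ) (b : ℕ → ℝ) : ℝ≥0∞ := ∫⁻ z in sqo (0, 0) 2, ip (1 / 4) |pM a b n z 0 0|

theorem II_meas (a : ℝ) (n : ℕ) : Measurable (II a n) := (fz_meas a n).lintegral_prod_right'

theorem II_congr {a : ℝ} {b b' : ℕ → ℝ} {n : ℕ} (h : ∀ j < n, b j = b' j) : II a n b = II a n b' := by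
  unfold II
  exact lintegral_congr fun z => by rw [pM_congr h]

theorem upd_meas (b : ℕ → ℝ) (m : ℕ) (s : ℝ) : Measurable fun t : ℝ => Function.update b m (b m + s * t) := by
  refine measurable_pi_iff.2 fun j => ?_
  by_cases hj : j = m
  · subst hj
    simp only [Function.update_self]
    exact (measurable_id.const_mul s).const_add _
  · simp only [Function.update_of_ne hj]
    exact measurable_const

theorem II_step (a : ℝ) (n m : ℕ) (s : ℝ) (b : ℕ → ℝ) {g : ℝ × ℝ → ℝ≥0∞}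
    (h : ∀ z, ∫⁻ t, ip (1 / 4) |pM a (Function.update b m (b m + s * t)) n z 0 0| ∂un ≤ g z) :
    ∫⁻ t, II a n (Function.update b m (b m + s * t)) ∂un ≤ ∫⁻ z in sqo (0, 0) 2, g z := by
  have : SFinite un := by unfold un; infer_instance
  unfold II
  rw [lintegral_lintegral_swap]
  · exact lintegral_mono fun z => h z
  · refine Measurable.aemeasurable ?_
    exact (fz_meas a n).comp (((upd_meas b m s).comp measurable_fst).prodMk measurable_snd)

theorem un_univ : un Set.univ = 1 := by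
  unfold un
  rw [Measure.restrict_apply_univ, Real.volume_Icc]
  simp

instance un_prob30 : IsProbabilityMeasure un := ⟨un_univ⟩

theorem vol_sq : volume (sqo (0, 0) 2) = 4 := by
  unfold sqo
  rw [Measure.volume_eq_prod, Measure.prod_prod, Real.volume_Ico, ← ENNReal.ofReal_mul (by norm_num)]
  norm_num

/-- Markov's inequality for the functional `rr` -/
theorem markov {a : ℝ} {n : ℕ} {ρ δ cap y Q : ℝ} (hρ : 0 < ρ) (hρ1 : ρ ≤ 1) (hδ : 0 < δ) (hy : 0 ≤ y) (hyc : y ≤ cap)
    (hQ : 0 ≤ Q) (b : ℕ → ℝ) (hb : rr a n ρ δ cap b < y) :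
    ENNReal.ofReal Q ≤ ENNReal.ofReal (Q / (δ * ρ ^ 2) * Real.exp (y / 4)) * II a n b := by
  have h1 := Pool.Agent.Helper6.AF.rr_not hδ.le hρ hρ1 b hy hb hyc
  have hm : Measurable fun z : ℝ × ℝ => ip (1 / 4) |pM a b n z 0 0| :=
    (fz_meas a n).comp (measurable_const.prodMk measurable_id)
  have h2 := mul_meas_ge_le_lintegral (μ := volume.restrict (sqo (0, 0) 2)) hm (ENNReal.ofReal (Real.exp (-(y / 4))))
  have hsq : MeasurableSet (sqo (0, 0) 2) := measurableSet_Ico.prod measurableSet_Ico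
  have h3 : volume (bad a b n y ∩ sqo (0, 0) 2) ≤ (volume.restrict (sqo (0, 0) 2))
      {z | ENNReal.ofReal (Real.exp (-(y / 4))) ≤ ip (1 / 4) |pM a b n z 0 0|} := by
    rw [Measure.restrict_apply' hsq]
    refine measure_mono (inter_subset_inter_left _ ?_)
    intro z hz
    have hz' : Real.log (nn (pM a b n z)) < y := hz
    have h4 := Pool.Agent.Helper6.AF.one_le_nn a b n z
    have h5 : nn (pM a b n z) < Real.exp y := (Real.log_lt_iff_lt_exp (by linarith)).1 hz'
    have h6 : |pM a b n z 0 0| ≤ nn (pM a b n z) := by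
      unfold nn
      have := abs_nonneg (pM a b n z 0 1)
      have := abs_nonneg (pM a b n z 1 0)
      have := abs_nonneg (pM a b n z 1 1)
      linarith
    show ENNReal.ofReal (Real.exp (-(y / 4))) ≤ ip (1 / 4) |pM a b n z 0 0|
    have h7 : Real.exp (-(y / 4)) = Real.exp y ^ (-(1 / 4 : ℝ)) := by
      rw [← Real.exp_mul]
      congr 1
      ring
    unfold ip
    rw [h7, ← ENNReal.ofReal_rpow_of_pos (Real.exp_pos y), ENNReal.rpow_neg, ENNReal.rpow_neg, ENNReal.inv_le_inv]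
    exact ENNReal.rpow_le_rpow (ENNReal.ofReal_le_ofReal (by linarith)) (by norm_num)
  have h8 : 0 < δ * ρ ^ 2 := by positivity
  calc ENNReal.ofReal Q = ENNReal.ofReal (Q / (δ * ρ ^ 2) * Real.exp (y / 4)) *
        (ENNReal.ofReal (Real.exp (-(y / 4))) * ENNReal.ofReal (δ * ρ ^ 2)) := by
        rw [← ENNReal.ofReal_mul (Real.exp_pos _).le, ← ENNReal.ofReal_mul (by positivity)]
        congr 1
        rw [show Q / (δ * ρ ^ 2) * Real.exp (y / 4) * (Real.exp (-(y / 4)) * (δ * ρ ^ 2)) =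
          Q / (δ * ρ ^ 2) * (δ * ρ ^ 2) * (Real.exp (y / 4) * Real.exp (-(y / 4))) by ring, ← Real.exp_add,
          add_neg_cancel, Real.exp_zero, mul_one, div_mul_cancel₀ _ h8.ne']
    _ ≤ ENNReal.ofReal (Q / (δ * ρ ^ 2) * Real.exp (y / 4)) * II a n b := by
        gcongr
        exact (mul_le_mul_right (h1.trans h3) _).trans h2

theorem seq_meas {d : ℕ} (γ : ℝ) {k : ℕ} (e : Fin k → Td d → ℝ) (U : Fin (k + 1) → ℝ) (α θ : Td d) :
    Measurable fun w : Ow d => sq α (frc γ e U w) θ := by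
  refine measurable_pi_iff.2 fun j => ?_
  show Measurable fun w : Ow d => (∑ i : Fin k, U i.succ * e i (θ + j • α)) + U 0 * eta γ w (θ + j • α)
  exact (((Pool.Agent.Helper82.AN.eta_meas γ).comp (measurable_id.prodMk measurable_const)).const_mul _).const_add _

/-- **E0**: expectation over `M` windows, base level -/
theorem base_exp : ∃ C : ℝ, 1 ≤ C ∧ ∀ (d : ℕ) (γ : ℝ) (k : ℕ) (e : Fin k → Td d → ℝ) (U : Fin (k + 1) → ℝ) (α : Td d)
    (r₀ a ρ δ cap s y Q : ℝ) (n M N P : ℕ) (β : Fin M → Td d), 0 < γ → (∀ i, Continuous (e i)) → U 0 ≠ 0 →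
    0 < r₀ → SepR α r₀ (n + 2) M β → 1 ≤ N → 1 ≤ P → 2 * ((M * (n + 2) : ℕ) : ℝ) ≤ (2 * N * r₀) ^ (2 * P) → 1 ≤ |a| →
    0 < ρ → ρ ≤ 1 → 0 < δ → 0 ≤ y → y ≤ cap → 0 ≤ Q → 0 < s → s ≤ 1 →
    s ≤ |U 0| * Real.exp (-((P * N : ℝ) ^ γ)) / 20 →
    ∫⁻ w, ∏ l, (1 + ENNReal.ofReal Q *
      {b : ℕ → ℝ | rr a (n + 2) ρ δ cap b < y}.indicator 1 (sq α (frc γ e U w) (β l))) ∂lawL d ≤
      (ENNReal.ofReal (Real.exp (n + 1) * (1 + Q * (4 / (δ * ρ ^ 2)) * Real.exp (y / 4) * (C / s) *
        (C / (s * |a| ^ (1 / 4 : ℝ))) ^ n))) ^ M := by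
  obtain ⟨C₁, hC₁, step⟩ := Pool.Agent.Helper6.AF.base_step
  obtain ⟨C₂, hC₂, start⟩ := Pool.Agent.Helper6.AF.base_start
  refine ⟨max C₁ C₂, le_max_of_le_left hC₁, ?_⟩
  intro d γ k e U α r₀ a ρ δ cap s y Q n M N P β hγ he hU hr₀ hS hN hP hint ha hρ hρ1 hδ hy hyc hQ hs hs1 hsU
  obtain ⟨C, hC⟩ : ∃ C, C = max C₁ C₂ := ⟨_, rfl⟩
  rw [← hC]
  have hCC1 : C₁ ≤ C := hC ▸ le_max_left _ _
  have hCC2 : C₂ ≤ C := hC ▸ le_max_right _ _
  have hC0 : 0 < C := by linarith
  have ha0 : 0 < |a| := by linarith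
  have hap : 0 < |a| ^ (1 / 4 : ℝ) := Real.rpow_pos_of_pos ha0 _
  -- constants
  obtain ⟨A, hA⟩ : ∃ A, A = ENNReal.ofReal (Q / (δ * ρ ^ 2) * Real.exp (y / 4)) := ⟨_, rfl⟩
  obtain ⟨G, hG⟩ : ∃ G, G = ENNReal.ofReal (C / (s * |a| ^ (1 / 4 : ℝ))) := ⟨_, rfl⟩
  obtain ⟨S0, hS0⟩ : ∃ S0, S0 = ENNReal.ofReal (C / s) := ⟨_, rfl⟩
  have e2 : (1 : ℝ≥0∞) + A * (G ^ n * (S0 * 4)) = ENNReal.ofReal (1 + Q * (4 / (δ * ρ ^ 2)) * Real.exp (y / 4) * (C / s) *
      (C / (s * |a| ^ (1 / 4 : ℝ))) ^ n) := by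
    have h4 : (4 : ℝ≥0∞) = ENNReal.ofReal 4 := by norm_num
    rw [hA, hG, hS0, h4, ← ENNReal.ofReal_mul (by positivity), ← ENNReal.ofReal_pow (by positivity),
      ← ENNReal.ofReal_mul (by positivity), ← ENNReal.ofReal_mul (by positivity), ← ENNReal.ofReal_one,
      ← ENNReal.ofReal_add (by norm_num) (by positivity)]
    congr 1
    ring
  have e3 : ENNReal.ofReal (Real.exp 1) ^ (n + 1) = ENNReal.ofReal (Real.exp (n + 1)) := by
    rw [← ENNReal.ofReal_pow (Real.exp_pos _).le, ← Real.exp_nat_mul]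
    push_cast
    rw [mul_one]
  -- the noise
  have hsh : ∀ (l : Fin M) (j : ℕ), ∃ S : Ow d → ℝ → Ow d, (Measurable fun q : Ow d × ℝ => S q.1 q.2) ∧
      (j < n + 1 → (∀ G : Ow d → ℝ≥0∞, Measurable G →
        ∫⁻ w, G w ∂lawL d ≤ ENNReal.ofReal (Real.exp 1) * ∫⁻ w, ∫⁻ t, G (S w t) ∂un ∂lawL d) ∧
      ∀ w, Hw γ w ≠ ∞ → ∀ t,
        (∀ i < n + 2, sq α (frc γ e U (S w t)) (β l) i =
          Function.update (sq α (frc γ e U w) (β l)) j (sq α (frc γ e U w) (β l) j + s * t) i) ∧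
        ∀ l', l' ≠ l → ∀ i < n + 2, sq α (frc γ e U (S w t)) (β l') i = sq α (frc γ e U w) (β l') i) := by
    intro l j
    by_cases hj : j < n + 1
    · obtain ⟨S, h1, h2, h3⟩ := Pool.Agent.Helper99.AF.shift1 (e := e) hγ hU hr₀ hS hN hP hint hs.le hsU l j (by omega)
      exact ⟨S, h1, fun _ => ⟨h2, h3⟩⟩
    · exact ⟨fun w _ => w, measurable_fst, fun h => absurd h hj⟩
  choose S hSm hS1 using hsh
  -- the functions
  let φ : Fin M → ℕ → Ow d → ℝ≥0∞ := fun l j w => match j with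
    | 0 => 1 + A * (G ^ n * (S0 * 4))
    | i + 1 => 1 + A * (G ^ (n - i) * II a (i + 2) (sq α (frc γ e U w) (β l)))
  have hφ0 : ∀ l w, φ l 0 w = 1 + A * (G ^ n * (S0 * 4)) := fun _ _ => rfl
  have hφs : ∀ l i w, φ l (i + 1) w = 1 + A * (G ^ (n - i) * II a (i + 2) (sq α (frc γ e U w) (β l))) := fun _ _ _ => rfl
  have hφm : ∀ l j, Measurable (φ l j) := by
    intro l j
    rcases j with _ | i
    · exact measurable_const
    · exact ((((II_meas a (i + 2)).comp (seq_meas γ e U α (β l))).const_mul _).const_mul _).const_add _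
  have hmain := peel2 (μ := lawL d) (τ := un) (J := n + 1) hφm hSm (C := ENNReal.ofReal (Real.exp 1))
    (Z := {w | Hw γ w ≠ ∞}) (Pool.Agent.Helper82.AN.Hw_ae hγ) (fun l j hj => (hS1 l j hj).1) ?_ ?_
  · calc ∫⁻ w, ∏ l, (1 + ENNReal.ofReal Q *
          {b : ℕ → ℝ | rr a (n + 2) ρ δ cap b < y}.indicator 1 (sq α (frc γ e U w) (β l))) ∂lawL d
        ≤ ∫⁻ w, ∏ l, φ l (n + 1) w ∂lawL d := by
          refine lintegral_mono fun w => Finset.prod_le_prod' fun l _ => ?_
          rw [hφs, Nat.sub_self, pow_zero, one_mul]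
          refine add_le_add le_rfl ?_
          by_cases hb : rr a (n + 2) ρ δ cap (sq α (frc γ e U w) (β l)) < y
          · rw [Set.indicator_of_mem (show sq α (frc γ e U w) (β l) ∈ {b : ℕ → ℝ | rr a (n + 2) ρ δ cap b < y} from hb),
              Pi.one_apply, mul_one, hA]
            exact markov hρ hρ1 hδ hy hyc hQ _ hb
          · rw [Set.indicator_of_notMem (show sq α (frc γ e U w) (β l) ∉ {b : ℕ → ℝ | rr a (n + 2) ρ δ cap b < y} from hb),
              mul_zero]
            exact zero_le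
      _ ≤ ENNReal.ofReal (Real.exp 1) ^ (M * (n + 1)) * ∫⁻ w, ∏ l, φ l 0 w ∂lawL d := hmain
      _ = (ENNReal.ofReal (Real.exp (n + 1) * (1 + Q * (4 / (δ * ρ ^ 2)) * Real.exp (y / 4) * (C / s) *
        (C / (s * |a| ^ (1 / 4 : ℝ))) ^ n))) ^ M := by
          simp only [hφ0, Finset.prod_const, Finset.card_univ, Fintype.card_fin, lintegral_const, measure_univ, mul_one]
          rw [mul_comm M (n + 1), pow_mul, ← mul_pow]
          congr 1
          rw [e2, e3, ← ENNReal.ofReal_mul (Real.exp_pos _).le]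
  · -- other windows
    intro l l' hl j hj i hi w hw t
    rcases i with _ | i
    · rfl
    · rw [hφs, hφs, II_congr fun m hm => ((hS1 l j hj).2 w hw t).2 l' hl m (by omega)]
  · -- the same window
    intro l j hj w hw
    obtain ⟨b, hb⟩ : ∃ b, b = sq α (frc γ e U w) (β l) := ⟨_, rfl⟩
    have e1 : ∀ t, φ l (j + 1) (S l j w t) = 1 + A * (G ^ (n - j) * II a (j + 2) (Function.update b j (b j + s * t))) := by
      intro t
      rw [hφs, hb, II_congr fun m hm => ((hS1 l j hj).2 w hw t).1 m (by omega)]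
    have m1 : Measurable fun t : ℝ => II a (j + 2) (Function.update b j (b j + s * t)) :=
      (II_meas a (j + 2)).comp (upd_meas b j s)
    simp only [e1]
    rw [lintegral_add_left measurable_const, lintegral_const, measure_univ, mul_one, lintegral_const_mul _ (m1.const_mul _),
      lintegral_const_mul _ m1]
    rcases j with _ | i
    · rw [hφ0 l w, Nat.sub_zero]
      gcongr
      refine (II_step a 2 0 s b (g := fun _ => S0) fun z => ?_).trans ?_
      · refine (start a s b z ha hs hs1).trans ?_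
        rw [hS0]
        exact ENNReal.ofReal_le_ofReal (by gcongr)
      · rw [setLIntegral_const, vol_sq]
    · rw [hφs l i w, ← hb]
      have h5 : n - i = (n - (i + 1)) + 1 := by omega
      rw [h5, pow_succ, mul_assoc]
      gcongr
      refine (II_step a (i + 1 + 2) (i + 1) s b (g := fun z => G * ip (1 / 4) |pM a b (i + 2) z 0 0|) fun z => ?_).trans ?_
      · refine (step a s (i + 1) b z ha hs hs1).trans ?_
        rw [hG]
        gcongr
      · rw [lintegral_const_mul]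
        · rfl
        · exact (fz_meas a _).comp (measurable_const.prodMk measurable_id)

end Pool.Agent.Helper30.AF
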