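import Mathlib

/-!
# Block SEQ of project AF (`MP_9ee088_an`): lengths of the levels

`J i = A ^ (2 * i + 1)` and `n 0 = A ^ k`, so `log (n i) ≥ (k + i ^ 2) * log A`, while
`log (n (i + 1)) ≤ log (n i) + (2 * i + 2) * log A`.
-/

namespace Pool.Agent.Helper30.AF

/-- the recursion of the lengths -/
def len (A k : ℕ) : ℕ → ℕ
  | 0 => A ^ k
  | i + 1 => A ^ (2 * i + 1) * (len A k i + 5)

lemma len_ge {A k : ℕ} (i : ℕ) : A ^ (k + i ^ 2) ≤ len A k i := by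
  induction i with
  | zero => simp [len]
  | succ i ih =>
    calc A ^ (k + (i + 1) ^ 2) = A ^ (2 * i + 1) * A ^ (k + i ^ 2) := by
          rw [← pow_add]; congr 1; ring
      _ ≤ A ^ (2 * i + 1) * (len A k i + 5) := Nat.mul_le_mul_left _ (by omega)

lemma len_le {A k : ℕ} (hA : 2 ≤ A) (hk : 5 ≤ k) (i : ℕ) : len A k (i + 1) ≤ A ^ (2 * i + 2) * len A k i := by
  have h1 : 5 ≤ len A k i := by
    have h2 : k < A ^ k := Nat.lt_pow_self (by omega)
    have h3 : A ^ k ≤ A ^ (k + i ^ 2) := Nat.pow_le_pow_right (by omega) (by omega)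
    have h4 := len_ge (A := A) (k := k) i
    omega
  calc len A k (i + 1) = A ^ (2 * i + 1) * (len A k i + 5) := rfl
    _ ≤ A ^ (2 * i + 1) * (A * len A k i) := by
        apply Nat.mul_le_mul_left
        nlinarith
    _ = A ^ (2 * i + 2) * len A k i := by ring

/-- **SEQ**: lengths of the levels -/
theorem seq_ex {x : ℝ} (hx0 : 0 < x) (hx : x < 1) {K : ℕ → ℝ} {c : ℝ} (hK : ∀ i, K i ≤ Real.exp (c * (i + 1) ^ 2)) (n₀ : ℕ) :
    ∃ (n J : ℕ → ℕ), n₀ ≤ n 0 ∧ (∀ i, 1 ≤ J i ∧ n (i + 1) = J i * (n i + 5)) ∧ (∀ i, K i ≤ n i) ∧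
      ∀ i, K i * ((n (i + 1) : ℕ) : ℝ) ^ x ≤ n i := by
  obtain ⟨δ, hδ⟩ : ∃ δ : ℝ, δ = 1 - x := ⟨_, rfl⟩
  have hδ0 : 0 < δ := by rw [hδ]; linarith
  have hδ1 : δ < 1 := by rw [hδ]; linarith
  obtain ⟨A, hA⟩ := exists_nat_ge (Real.exp (4 * |c| / δ) + 2)
  obtain ⟨k', hk'⟩ := exists_nat_ge (1 + 2 / δ ^ 2 + 2 / δ)
  obtain ⟨k, hk⟩ : ∃ k : ℕ, k = k' + n₀ + 5 := ⟨_, rfl⟩
  have hA2 : 2 ≤ A := by
    have h1 : (2 : ℝ) ≤ A := by
      have := Real.exp_pos (4 * |c| / δ)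
      linarith
    exact_mod_cast h1
  have hA0 : (0 : ℝ) < A := by
    have : 0 < A := by omega
    exact_mod_cast this
  have hkR : 1 + 2 / δ ^ 2 + 2 / δ ≤ (k : ℝ) := by
    have : (k : ℝ) = k' + n₀ + 5 := by rw [hk]; push_cast; ring
    rw [this]
    have : (0 : ℝ) ≤ n₀ := Nat.cast_nonneg _
    linarith
  -- logarithm of `A`
  obtain ⟨l, hl⟩ : ∃ l : ℝ, l = Real.log A := ⟨_, rfl⟩
  have hl1 : 4 * |c| / δ ≤ l := by
    rw [hl, Real.le_log_iff_exp_le hA0]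
    linarith
  have hl0 : 0 < l := by
    rw [hl]
    apply Real.log_pos
    have : (2 : ℝ) ≤ A := by exact_mod_cast hA2
    linarith
  have hcl : c ≤ δ / 4 * l := by
    have h1 : 4 * |c| ≤ l * δ := (div_le_iff₀ hδ0).1 hl1
    have h2 := le_abs_self c
    nlinarith
  -- positivity
  have hpos : ∀ i, (0 : ℝ) < len A k i := by
    intro i
    have h1 := len_ge (A := A) (k := k) i
    have h2 : 0 < A ^ (k + i ^ 2) := pow_pos (by omega) _
    have : 0 < len A k i := by omega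
    exact_mod_cast this
  have hlog : ∀ i : ℕ, ((k : ℝ) + (i : ℝ) ^ 2) * l ≤ Real.log (len A k i) := by
    intro i
    have h1 : ((A : ℝ)) ^ (k + i ^ 2) ≤ len A k i := by exact_mod_cast len_ge (A := A) (k := k) i
    have h2 := Real.log_le_log (pow_pos hA0 _) h1
    rw [Real.log_pow, ← hl] at h2
    push_cast at h2
    exact h2
  have hlog2 : ∀ i : ℕ, Real.log (len A k (i + 1)) ≤ (2 * i + 2) * l + Real.log (len A k i) := by
    intro i
    have h1 : (len A k (i + 1) : ℝ) ≤ (A : ℝ) ^ (2 * i + 2) * len A k i := by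
      exact_mod_cast len_le hA2 (by omega) i
    have h2 := Real.log_le_log (hpos _) h1
    rw [Real.log_mul (pow_pos hA0 _).ne' (hpos i).ne', Real.log_pow, ← hl] at h2
    push_cast at h2
    exact h2
  have key : ∀ i : ℕ, c * ((i : ℝ) + 1) ^ 2 + x * Real.log (len A k (i + 1)) ≤ Real.log (len A k i) := by
    intro i
    have h1 := hlog i
    have h2 := hlog2 i
    have hi : (0 : ℝ) ≤ i := Nat.cast_nonneg _
    -- the noise
    have h3 : c * ((i : ℝ) + 1) ^ 2 ≤ δ / 2 * l * ((i : ℝ) ^ 2 + 1) := by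
      have ha : c * ((i : ℝ) + 1) ^ 2 ≤ δ / 4 * l * ((i : ℝ) + 1) ^ 2 :=
        mul_le_mul_of_nonneg_right hcl (by positivity)
      have hb : ((i : ℝ) + 1) ^ 2 ≤ 2 * ((i : ℝ) ^ 2 + 1) := by nlinarith [sq_nonneg ((i : ℝ) - 1)]
      have hc : δ / 4 * l * ((i : ℝ) + 1) ^ 2 ≤ δ / 4 * l * (2 * ((i : ℝ) ^ 2 + 1)) :=
        mul_le_mul_of_nonneg_left hb (by positivity)
      calc c * ((i : ℝ) + 1) ^ 2 ≤ δ / 4 * l * ((i : ℝ) + 1) ^ 2 := ha
        _ ≤ δ / 4 * l * (2 * ((i : ℝ) ^ 2 + 1)) := hc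
        _ = δ / 2 * l * ((i : ℝ) ^ 2 + 1) := by ring
    have h4 : 2 * (i : ℝ) + 2 ≤ δ / 2 * (i : ℝ) ^ 2 + 2 / δ + 2 := by
      have h : 0 ≤ δ / 2 * ((i : ℝ) - 2 / δ) ^ 2 := by positivity
      have h' : δ / 2 * ((i : ℝ) - 2 / δ) ^ 2 = δ / 2 * (i : ℝ) ^ 2 - 2 * i + 2 / δ := by
        field_simp
        ring
      rw [h'] at h
      linarith
    have h5 : δ / 2 + 2 / δ + 2 ≤ δ * k := by
      have h := mul_le_mul_of_nonneg_left hkR hδ0.le
      have h' : δ * (1 + 2 / δ ^ 2 + 2 / δ) = δ + 2 / δ + 2 := by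
        field_simp
      rw [h'] at h
      linarith
    have h6 : x * Real.log (len A k (i + 1)) ≤ (2 * i + 2) * l + x * Real.log (len A k i) := by
      have h := mul_le_mul_of_nonneg_left h2 hx0.le
      have h' : x * ((2 * i + 2) * l) ≤ (2 * i + 2) * l := by
        have : 0 ≤ (2 * (i : ℝ) + 2) * l := by positivity
        nlinarith
      nlinarith
    have h7 : δ * (((k : ℝ) + (i : ℝ) ^ 2) * l) ≤ δ * Real.log (len A k i) :=
      mul_le_mul_of_nonneg_left h1 hδ0.le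
    have h8 : (2 * (i : ℝ) + 2) * l ≤ (δ / 2 * (i : ℝ) ^ 2 + 2 / δ + 2) * l :=
      mul_le_mul_of_nonneg_right h4 hl0.le
    have h9 : (δ / 2 + 2 / δ + 2) * l ≤ δ * k * l := mul_le_mul_of_nonneg_right h5 hl0.le
    have h10 : x = 1 - δ := by rw [hδ]; ring
    have h11 : δ / 2 * l * ((i : ℝ) ^ 2 + 1) + (δ / 2 * (i : ℝ) ^ 2 + 2 / δ + 2) * l =
        δ * (i : ℝ) ^ 2 * l + (δ / 2 + 2 / δ + 2) * l := by ring
    have h12 : δ * (((k : ℝ) + (i : ℝ) ^ 2) * l) = δ * (i : ℝ) ^ 2 * l + δ * k * l := by ring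
    have h13 : x * Real.log (len A k i) = Real.log (len A k i) - δ * Real.log (len A k i) := by
      rw [h10]; ring
    linarith
  have main : ∀ i : ℕ, Real.exp (c * ((i : ℝ) + 1) ^ 2) * ((len A k (i + 1) : ℕ) : ℝ) ^ x ≤ len A k i := by
    intro i
    rw [Real.rpow_def_of_pos (hpos (i + 1)), ← Real.exp_add]
    calc Real.exp (c * ((i : ℝ) + 1) ^ 2 + Real.log (len A k (i + 1)) * x)
        ≤ Real.exp (Real.log (len A k i)) := Real.exp_le_exp.2 (by linarith [key i])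
      _ = len A k i := Real.exp_log (hpos i)
  have one_le : ∀ i : ℕ, (1 : ℝ) ≤ ((len A k (i + 1) : ℕ) : ℝ) ^ x := by
    intro i
    apply Real.one_le_rpow _ hx0.le
    have : 0 < len A k (i + 1) := by exact_mod_cast hpos (i + 1)
    exact_mod_cast this
  refine ⟨len A k, fun i => A ^ (2 * i + 1), ?_, fun i => ⟨Nat.one_le_pow _ _ (by omega), rfl⟩, ?_, ?_⟩
  · have h2 : k < A ^ k := Nat.lt_pow_self (by omega)
    show n₀ ≤ A ^ k
    omega
  · intro i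
    calc K i ≤ Real.exp (c * (i + 1) ^ 2) := hK i
      _ ≤ Real.exp (c * (i + 1) ^ 2) * ((len A k (i + 1) : ℕ) : ℝ) ^ x :=
          le_mul_of_one_le_right (Real.exp_pos _).le (one_le i)
      _ ≤ len A k i := main i
  · intro i
    calc K i * ((len A k (i + 1) : ℕ) : ℝ) ^ x
        ≤ Real.exp (c * (i + 1) ^ 2) * ((len A k (i + 1) : ℕ) : ℝ) ^ x :=
          mul_le_mul_of_nonneg_right (hK i) (by linarith [one_le i])
      _ ≤ len A k i := main i

end Pool.Agent.Helper30.AF
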